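import Pool.Agent.Work.MP_eceddd_h11.SepMain

/-!
# MP_eceddd_an, Q1: separated sets

`Pool.Oligo.PolyVertex S` is the polynomial-vertex property of the finite set `S` of real 2x2
matrices, `Pool.Oligo.states S a k` the set of the states reachable from `a` after `k` steps.
-/

set_option autoImplicit false

namespace Pool.Agent.Results.MP_eceddd_an.Separated

/-- Let the determinants of the invertible members of `S` have one sign, let any two different
ones, `T` and `U`, be proportional with a positive factor or satisfy
`det T * det (T - U) ≤ 0` (that is, `T⁻¹ U` has two positive eigenvalues, one at most `1` and one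
at least `1`), and suppose that for some `k₀` the hull of the states reachable in `k₀` steps with
the invertible members contains the origin, for every initial vector. Then `S` has the
polynomial-vertex property. -/
theorem result (S : Finset (Matrix (Fin 2) (Fin 2) ℝ))
    (h : ∀ T ∈ S, ∀ U ∈ S, T.det ≠ 0 → U.det ≠ 0 → T ≠ U →
      0 < T.det * U.det ∧ (T.det * (T - U).det ≤ 0 ∨ ∃ r : ℝ, 0 < r ∧ U = r • T))
    (k₀ : ℕ) (h0 : ∀ a : Fin 2 → ℝ,
      (0 : Fin 2 → ℝ) ∈ convexHull ℝ (Pool.Oligo.states (S.filter fun T => T.det ≠ 0) a k₀)) :
    Pool.Oligo.PolyVertex S :=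
  Pool.Oligo.sep_main S h k₀ h0

end Pool.Agent.Results.MP_eceddd_an.Separated
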