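import Pool.Agent.Work.MP_eceddd_h11.SepMain

/-!
# MP_eceddd_an, Q1: sets with singular differences

`Pool.Oligo.PolyVertex S` is the polynomial-vertex property of the finite set `S` of real 2x2
matrices.
-/

set_option autoImplicit false

namespace Pool.Agent.Results.MP_eceddd_an.SingularDifferences

/-- If the determinants of the invertible members of `S` have one sign and the difference of any
two of them is singular, then `S` has the polynomial-vertex property. -/
theorem result (S : Finset (Matrix (Fin 2) (Fin 2) ℝ))
    (h : ∀ T ∈ S, ∀ U ∈ S, T.det ≠ 0 → U.det ≠ 0 → 0 < T.det * U.det ∧ (T - U).det = 0) :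
    Pool.Oligo.PolyVertex S :=
  Pool.Oligo.sing_main S h

end Pool.Agent.Results.MP_eceddd_an.SingularDifferences
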