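import Pool.Agent.Work.MP_eceddd_h11.Solv

/-!
# MP_eceddd_an, Q1: sets whose invertible members generate a virtually solvable group

`Pool.Oligo.PolyVertex S` is the polynomial-vertex property of the finite set `S` of real 2x2
matrices, `Pool.Oligo.grp S` the subgroup of `GL (Fin 2) ℝ` generated by the invertible members
of `S`.
-/

set_option autoImplicit false

namespace Pool.Agent.Results.MP_eceddd_an.SolvableGroups

/-- If the subgroup of `GL_2(ℝ)` generated by the invertible members of `S` has a solvable
subgroup of finite index, then `S` has the polynomial-vertex property. -/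
theorem result (S : Finset (Matrix (Fin 2) (Fin 2) ℝ)) (H : Subgroup (Pool.Oligo.grp S))
    (hf : H.FiniteIndex) (hs : Group.IsSolvable H) : Pool.Oligo.PolyVertex S :=
  Pool.Oligo.main_vs S H hf hs

end Pool.Agent.Results.MP_eceddd_an.SolvableGroups
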