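import Pool.Agent.Work.MP_eceddd_h11.SepMain

/-!
# MP_eceddd_an, Q1: symmetric sets with hyperbolic pairs

`Pool.Oligo.PolyVertex S` is the polynomial-vertex property of the finite set `S` of real 2x2
matrices.
-/

set_option autoImplicit false

namespace Pool.Agent.Results.MP_eceddd_an.Symmetric

/-- Let the invertible members of `S` be closed under negation, with determinants of one sign,
and let any two of them, `T` and `U`, be proportional or satisfy
`det (T - U) * det (T + U) ≤ 0` (that is, `T⁻¹ U` has two eigenvalues of the same sign with `1`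
between their absolute values). Then `S` has the polynomial-vertex property. -/
theorem result (S : Finset (Matrix (Fin 2) (Fin 2) ℝ))
    (hneg : ∀ T ∈ S, T.det ≠ 0 → -T ∈ S)
    (h : ∀ T ∈ S, ∀ U ∈ S, T.det ≠ 0 → U.det ≠ 0 →
      0 < T.det * U.det ∧ ((T - U).det * (T + U).det ≤ 0 ∨ ∃ r : ℝ, U = r • T)) :
    Pool.Oligo.PolyVertex S :=
  Pool.Oligo.sep_sym_main S hneg h

end Pool.Agent.Results.MP_eceddd_an.Symmetric
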